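import Pool.Agent.Helper82.SG.St

/-!
# Project SG, module GRD: from a set of bounded aspect ratio to the lattice
-/

set_option autoImplicit false

namespace Pool.Agent.Helper76.SG

open Finset Real MeasureTheory Pool.Agent.Helper77.Steiner Pool.Agent.Helper82.SG
open Pool.Agent.Helper18.GP (nlen NConn)
open scoped ENNReal

private theorem net_nonneg {E : Type*} [MetricSpace E] {V : Finset E} {l : ℝ} (h : Net V l) : 0 ≤ l := by
  induction h with
  | single v => exact le_rfl
  | step h hp w ih => exact add_nonneg ih dist_nonneg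

theorem hGRD (hDEG : StDEG) (hLIP : StLIP) (hLOW : StLOW) (hRND : StRND) : StGRD := by
  classical
  intro d M c D _ hM hD hδ hc hgr A hA hasp V l hnet hAV
  have hl := net_nonneg hnet
  have hMr : (1 : ℝ) ≤ M := by exact_mod_cast hM
  have hM0 : (0 : ℝ) < M := by linarith
  have hD0 : 0 < D := by linarith
  set δ : ℝ := √d * D / M with hδd
  have hδ0 : 0 ≤ δ := by positivity
  by_cases hcard : 2 ≤ A.card
  swap
  · have h1 : A.card = 1 := by
      have := Finset.card_pos.2 hA
      omega
    obtain ⟨a, rfl⟩ := Finset.card_eq_one.1 h1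
    have h2 : mstLen ({a} : Finset (EuclideanSpace ℝ (Fin d))) ≤ 0 := by
      have := Pool.Agent.Helper77.GP.mstLen_le_list ({a} : Finset (EuclideanSpace ℝ (Fin d))) hA [] (by simp) (by
        intro x hx y hy
        simp only [Finset.coe_singleton, Set.mem_singleton_iff] at hx hy
        rw [hx, hy]
        exact Relation.EqvGen.refl _)
      simpa [nlen] using this
    have h3 : 0 ≤ c * (1 - 10 * δ) := mul_nonneg (by linarith) (by linarith)
    exact (mul_nonpos_of_nonneg_of_nonpos h3 h2).trans hl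
  -- at least two points
  have hne : A.offDiag.Nonempty := by
    rw [← Finset.card_pos, Finset.offDiag_card]
    have : A.card < A.card * A.card := by nlinarith
    omega
  obtain ⟨⟨u, v⟩, huv, hmin⟩ := A.offDiag.exists_min_image (fun p => dist p.1 p.2) hne
  rw [mem_offDiag] at huv
  set σ : ℝ := dist u v with hσ
  have hσ0 : 0 < σ := dist_pos.2 huv.2.2
  have hmin' : ∀ x ∈ A, ∀ y ∈ A, x ≠ y → σ ≤ dist x y := fun x hx y hy hxy =>
    hmin (x, y) (mem_offDiag.2 ⟨hx, hy, hxy⟩)
  have hΔ : 0 < D * σ := mul_pos hD0 hσ0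
  obtain ⟨B, hAB, hBc, hBl⟩ := hDEG A V l hA hnet hAV
  obtain ⟨f, hf1, hf2, hf3⟩ := hRND d M A (D * σ) hA hΔ hM
    (fun x hx y hy => hasp x hx y hy u huv.1 v huv.2.1 huv.2.2)
  set s : ℝ := M / (D * σ) with hs
  have hs0 : 0 < s := div_pos hM0 hΔ
  have hsq : √d = δ * (s * σ) := by
    rw [hδd, hs]
    field_simp
  have hsd : 0 ≤ √(d : ℝ) := Real.sqrt_nonneg _
  have hsσ : 0 < s * σ := mul_pos hs0 hσ0
  have hinj : Set.InjOn f (A : Set (EuclideanSpace ℝ (Fin d))) := by
    intro x hx y hy hxy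
    by_contra hne'
    have h1 := hf3 x hx y hy
    rw [hxy, dist_self] at h1
    have h2 := hmin' x hx y hy hne'
    have h3 : s * σ ≤ s * dist x y := mul_le_mul_of_nonneg_left h2 hs0.le
    have h4 : √(d : ℝ) ≤ 1 / 10 * (s * σ) := by
      rw [hsq]
      exact mul_le_mul_of_nonneg_right hδ hsσ.le
    linarith
  have hlow := hLOW A f s (√d) hA hs0 hsd hinj hf3
  have hBne : B.Nonempty := hA.mono hAB
  have hlip := hLIP B f s (√d) hBne hs0.le hsd (fun x _ y _ => hf2 x y)
  have hm := le_mstLen A hA σ hmin'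
  have hac : (2 : ℝ) ≤ A.card := by exact_mod_cast hcard
  have hbc : (B.card : ℝ) ≤ 2 * A.card := by exact_mod_cast hBc
  have hfA : 2 ≤ (A.image f).card := by
    rw [Finset.card_image_of_injOn hinj]
    exact hcard
  have hY := mstLen_pos (A.image f) hfA
  have hgr2 : gridRatio d M ≤ ENNReal.ofReal (mstLen (B.image f)) / ENNReal.ofReal (mstLen (A.image f)) := by
    unfold gridRatio
    refine iInf_le_of_le (A.image f) (iInf_le_of_le (B.image f) (iInf_le_of_le hfA
      (iInf_le_of_le (Finset.image_subset_image hAB) (iInf_le_of_le ?_ le_rfl))))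
    intro z hz
    obtain ⟨w, -, rfl⟩ := Finset.mem_image.1 hz
    exact hf1 w
  have h5 := hgr.trans hgr2
  have hY' : ENNReal.ofReal (mstLen (A.image f)) ≠ 0 := by
    rw [Ne, ENNReal.ofReal_eq_zero, not_le]
    exact hY
  rw [ENNReal.le_div_iff_mul_le (Or.inl hY') (Or.inl ENNReal.ofReal_ne_top),
    ← ENNReal.ofReal_mul (by linarith)] at h5
  have h6 : c * mstLen (A.image f) ≤ mstLen (B.image f) := by
    rcases ENNReal.ofReal_le_ofReal_iff'.1 h5 with h | h
    · exact h
    · exfalso
      have : 0 < c * mstLen (A.image f) := mul_pos (by linarith) hY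
      linarith
  set m := mstLen A with hmd
  have hm0 : 0 < m := mstLen_pos A hcard
  -- the estimates
  have e1 : √(d : ℝ) * (A.card - 1) ≤ δ * s * m := by
    rw [hsq]
    calc δ * (s * σ) * ((A.card : ℝ) - 1) = δ * s * (((A.card : ℝ) - 1) * σ) := by ring
      _ ≤ δ * s * m := mul_le_mul_of_nonneg_left hm (by positivity)
  have e2 : s * m * (1 - δ) ≤ mstLen (A.image f) := by
    have : s * m * (1 - δ) = s * m - δ * s * m := by ring
    linarith
  have e3 : mstLen (B.image f) ≤ s * l + 4 * (δ * s * m) := by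
    have h7 : s * mstLen B ≤ s * l := mul_le_mul_of_nonneg_left hBl hs0.le
    have h8 : √(d : ℝ) * (B.card - 1) ≤ 4 * (√(d : ℝ) * (A.card - 1)) := by
      have : (B.card : ℝ) - 1 ≤ 4 * ((A.card : ℝ) - 1) := by linarith
      calc √(d : ℝ) * (B.card - 1) ≤ √(d : ℝ) * (4 * ((A.card : ℝ) - 1)) :=
            mul_le_mul_of_nonneg_left this hsd
        _ = 4 * (√(d : ℝ) * (A.card - 1)) := by ring
    linarith
  have e4 : s * (c * m * (1 - δ)) ≤ s * (l + 4 * δ * m) := by
    calc s * (c * m * (1 - δ)) = c * (s * m * (1 - δ)) := by ring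
      _ ≤ c * mstLen (A.image f) := mul_le_mul_of_nonneg_left e2 (by linarith)
      _ ≤ mstLen (B.image f) := h6
      _ ≤ s * l + 4 * (δ * s * m) := e3
      _ = s * (l + 4 * δ * m) := by ring
  have e5 := le_of_mul_le_mul_left e4 hs0
  have e6 : 0 ≤ δ * m * (9 * c - 4) := by
    apply mul_nonneg (mul_nonneg hδ0 hm0.le)
    linarith
  nlinarith [e5, e6]

end Pool.Agent.Helper76.SG
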